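import Pool.Graph.R_pool_sql_team_seeded_64922ed1.X108.HB.Z3
import Pool.Graph.R_pool_sql_team_seeded_64922ed1.X108.HB.PR

set_option autoImplicit false

/-!
# Montgomery's conjecture holds for all but few translates of every set, `T ≤ N^{3/2}`

Let `T ≤ N²`, `|a_n| ≤ 1` and `D(t) = ∑_{n ≤ N} a_n n^{it}`, a fixed Dirichlet polynomial.  For all
`1`-separated sets `W ⊂ [0,T]` and `X ⊂ [-T,T]`

`∑_{x ∈ X} ∑_{t ∈ W} |D(t + x)|² ≤
  C N^ε (|W| |X|)^{1/2} ((N + |W| + T^{1/2} |W|^{1/4}) (N + |X| + T^{1/2} |X|^{1/4}))^{1/2} N`.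

If `T ≤ N^{3/2}` and `|X| ≥ |W|` this gives the inequality of Q1 for the mean over `x ∈ X` of the
translates `W + x`.  So, whatever `W` and `D` are, the set of the `x ∈ [-T,T]` for which the inequality
of Q1 fails for `D` and the translate `W + x` contains no `1`-separated set of `|W|` points.
-/

namespace Pool.Agent.Results.MP_71ac24_nt.FewBadTranslates

open Finset

/-- `D(t) = ∑_{n ≤ N} a_n n^{it}` -/
noncomputable def D (N : ℕ) (a : ℕ → ℂ) (t : ℝ) : ℂ :=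
  ∑ n ∈ Finset.Icc 1 N, a n * Complex.exp (Complex.I * (t : ℂ) * (Real.log (n : ℝ) : ℂ))

/-- distinct members have distance at least one -/
def Separated (S : Finset ℝ) : Prop := ∀ t ∈ S, ∀ u ∈ S, t ≠ u → 1 ≤ |t - u|

theorem D_eq (N : ℕ) (a : ℕ → ℂ) (t : ℝ) :
    D N a t = Pool.Agent.X108.HB.DD (Icc 1 N) a t := by
  unfold D Pool.Agent.X108.HB.DD
  refine sum_congr rfl fun n _ => ?_
  unfold Pool.Agent.X108.HB.ee
  congr 2
  push_cast
  ring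

theorem quarter {s M : ℝ} (hs : 0 ≤ s) (hM : 0 ≤ M) :
    s ^ (1 / 4 : ℝ) * M ^ (3 / 4 : ℝ) ≤ s + M := by
  have := Real.geom_mean_le_arith_mean2_weighted (w₁ := 1 / 4) (w₂ := 3 / 4) (by norm_num)
    (by norm_num) hs hM (by norm_num)
  linarith

/-- the double sum, `T ≤ N²`, sets in an interval of length `2T` -/
theorem double {ε : ℝ} (hε : 0 < ε) : ∃ C : ℝ, 1 ≤ C ∧ ∀ (N : ℕ), 1 ≤ N → ∀ (T x : ℝ), 0 ≤ T →
    T ≤ (N : ℝ) ^ 2 → ∀ S : Finset ℝ, Separated S → (∀ t ∈ S, x ≤ t ∧ t ≤ x + 2 * T) →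
    Pool.Agent.X108.HB.ZZ (Icc 1 N) S ≤
      C * (N : ℝ) ^ ε * ((S.card : ℝ) * N * ((N : ℝ) + S.card + √T * (S.card : ℝ) ^ (1 / 4 : ℝ))) := by
  obtain ⟨C, hC1, hC⟩ := Pool.Agent.X108.HB.Z3 (ε := ε / 2) (by positivity)
  have h1 : (1 : ℝ) ≤ 2 ^ ε := Real.one_le_rpow (by norm_num) hε.le
  refine ⟨2 * C * 2 ^ ε, ?_, ?_⟩
  · nlinarith
  intro N hN T x hT0 hT S hS hST
  have hNr : (1 : ℝ) ≤ N := by exact_mod_cast hN
  have hN0 : (0 : ℝ) < N := by linarith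
  rcases S.eq_empty_or_nonempty with hSe | hSn
  · subst hSe
    simp [Pool.Agent.X108.HB.ZZ]
  have hs : (1 : ℝ) ≤ S.card := by exact_mod_cast hSn.card_pos
  set s : ℝ := (S.card : ℝ) with hs'
  have hs0 : (0 : ℝ) < s := by linarith
  set T' : ℝ := 2 * T + N with hT'
  have hT'1 : 1 ≤ T' := by rw [hT']; linarith
  have hT'N : T' ≤ 4 * (N : ℝ) ^ 2 := by rw [hT']; nlinarith
  have h2 := hC T' hT'1 S x ⟨hS, fun t ht => ⟨(hST t ht).1, by
    have := (hST t ht).2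
    rw [hT']
    linarith⟩⟩ N hN (by rw [hT']; linarith) (Icc 1 N) (Subset.refl _)
  rw [← hs'] at h2
  have hTe : T' ^ (ε / 2) ≤ 2 ^ ε * (N : ℝ) ^ ε := by
    calc T' ^ (ε / 2) ≤ (4 * (N : ℝ) ^ 2) ^ (ε / 2) :=
          Real.rpow_le_rpow (by linarith) hT'N (by positivity)
      _ = ((2 * (N : ℝ)) ^ (2 : ℝ)) ^ (ε / 2) := by
          congr 1
          rw [Real.rpow_two]
          ring
      _ = (2 * (N : ℝ)) ^ ε := by
          rw [← Real.rpow_mul (by positivity)]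
          congr 1
          ring
      _ = _ := Real.mul_rpow (by norm_num) hN0.le
  have hR : Pool.Agent.X108.HB.R3 s T' N ≤ 2 * (s * N * (N + s + √T * s ^ (1 / 4 : ℝ))) := by
    unfold Pool.Agent.X108.HB.R3
    have e1 : s ^ (5 / 4 : ℝ) = s * s ^ (1 / 4 : ℝ) := by
      rw [← Real.rpow_one_add' hs0.le (by norm_num)]
      norm_num
    have e2 : T' ^ (1 / 2 : ℝ) ≤ 2 * √T + √N := by
      rw [← Real.sqrt_eq_rpow, Real.sqrt_le_left (by positivity)]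
      have k1 := Real.sq_sqrt hT0
      have k2 := Real.sq_sqrt hN0.le
      have k3 := mul_nonneg (Real.sqrt_nonneg T) (Real.sqrt_nonneg (N : ℝ))
      rw [hT']
      nlinarith
    have e3 : √(N : ℝ) * s ^ (1 / 4 : ℝ) ≤ s + N := by
      have k1 : √(N : ℝ) ≤ (N : ℝ) ^ (3 / 4 : ℝ) := by
        rw [Real.sqrt_eq_rpow]
        exact Real.rpow_le_rpow_of_exponent_le hNr (by norm_num)
      calc _ ≤ (N : ℝ) ^ (3 / 4 : ℝ) * s ^ (1 / 4 : ℝ) := by gcongr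
        _ = s ^ (1 / 4 : ℝ) * (N : ℝ) ^ (3 / 4 : ℝ) := mul_comm _ _
        _ ≤ _ := quarter hs0.le hN0.le
    have k0 : 0 ≤ s ^ (1 / 4 : ℝ) := by positivity
    have e4 : s ^ (1 / 4 : ℝ) * T' ^ (1 / 2 : ℝ) ≤ 2 * (√T * s ^ (1 / 4 : ℝ)) + (s + N) := by
      calc _ ≤ s ^ (1 / 4 : ℝ) * (2 * √T + √N) := by gcongr
        _ = 2 * (√T * s ^ (1 / 4 : ℝ)) + √N * s ^ (1 / 4 : ℝ) := by ring
        _ ≤ _ := by linarith
    calc s ^ 2 * N + s * (N : ℝ) ^ 2 + s ^ (5 / 4 : ℝ) * T' ^ (1 / 2 : ℝ) * N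
        = s * N * (s + N + s ^ (1 / 4 : ℝ) * T' ^ (1 / 2 : ℝ)) := by rw [e1]; ring
      _ ≤ s * N * (s + N + (2 * (√T * s ^ (1 / 4 : ℝ)) + (s + N))) := by gcongr
      _ = _ := by ring
  calc _ ≤ _ := h2
    _ ≤ C * (2 ^ ε * (N : ℝ) ^ ε) * (2 * (s * N * (N + s + √T * s ^ (1 / 4 : ℝ)))) := by
        gcongr
        unfold Pool.Agent.X108.HB.R3
        positivity
    _ = _ := by ring

/-- the third term for `T ≤ N^{3/2}` -/
theorem third {N T p : ℝ} (hN : 1 ≤ N) (_hT : 0 ≤ T) (hp : 0 ≤ p) (h : T ≤ N ^ (3 / 2 : ℝ)) :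
    √T * p ^ (1 / 4 : ℝ) ≤ N + p := by
  have hN0 : 0 ≤ N := by linarith
  have hu : 0 ≤ p ^ (1 / 4 : ℝ) := by positivity
  have h1 : √T ≤ N ^ (3 / 4 : ℝ) := by
    rw [Real.sqrt_le_left (by positivity), ← Real.rpow_natCast, ← Real.rpow_mul hN0]
    norm_num
    exact h
  calc √T * p ^ (1 / 4 : ℝ) ≤ N ^ (3 / 4 : ℝ) * p ^ (1 / 4 : ℝ) := by gcongr
    _ = p ^ (1 / 4 : ℝ) * N ^ (3 / 4 : ℝ) := mul_comm _ _
    _ ≤ p + N := quarter hp hN0
    _ = _ := add_comm _ _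

theorem result :
    ∀ ε : ℝ, 0 < ε → ∃ C : ℝ, 0 < C ∧ ∀ (N : ℕ) (T : ℝ) (a : ℕ → ℂ), 1 ≤ N →
      T ≤ (N : ℝ) ^ 2 → (∀ n, ‖a n‖ ≤ 1) →
      ∀ W X : Finset ℝ, (∀ t ∈ W, 0 ≤ t ∧ t ≤ T) → (∀ x ∈ X, -T ≤ x ∧ x ≤ T) →
        Separated W → Separated X →
        (∑ x ∈ X, ∑ t ∈ W, ‖D N a (t + x)‖ ^ 2 ≤ C * (N : ℝ) ^ ε *
          √((W.card : ℝ) * X.card) *
          √(((N : ℝ) + W.card + √T * (W.card : ℝ) ^ (1 / 4 : ℝ)) *
            ((N : ℝ) + X.card + √T * (X.card : ℝ) ^ (1 / 4 : ℝ))) * N) ∧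
        (T ≤ (N : ℝ) ^ (3 / 2 : ℝ) → W.card ≤ X.card →
          ∑ x ∈ X, ∑ t ∈ W, ‖D N a (t + x)‖ ^ 2 ≤
            X.card * (C * (N : ℝ) ^ ε * ((N : ℝ) + W.card) * N)) ∧
        (T ≤ (N : ℝ) ^ (3 / 2 : ℝ) → W.Nonempty →
          (∀ x ∈ X, C * (N : ℝ) ^ ε * ((N : ℝ) + W.card) * N < ∑ t ∈ W, ‖D N a (t + x)‖ ^ 2) →
          X.card < W.card) := by
  intro ε hε
  obtain ⟨C, hC1, hC⟩ := double hε
  refine ⟨2 * C, by linarith, ?_⟩
  intro N T a hN hT ha W X hW hX hsW hsX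
  have hNr : (1 : ℝ) ≤ N := by exact_mod_cast hN
  have hN0 : (0 : ℝ) < N := by linarith
  have hNe : 0 < (N : ℝ) ^ ε := by positivity
  -- the main inequality
  have main : 0 ≤ T → ∑ x ∈ X, ∑ t ∈ W, ‖D N a (t + x)‖ ^ 2 ≤ C * (N : ℝ) ^ ε *
      √((W.card : ℝ) * X.card) *
      √(((N : ℝ) + W.card + √T * (W.card : ℝ) ^ (1 / 4 : ℝ)) *
        ((N : ℝ) + X.card + √T * (X.card : ℝ) ^ (1 / 4 : ℝ))) * N := by
    intro hT0
    have h1 := Pool.Agent.X108.HB.bil_add (I := Icc 1 N) (fun n hn => (mem_Icc.1 hn).1) a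
      (fun n _ => ha n) X W 0
    have h2 := hC N hN T 0 hT0 hT W hsW (fun t ht => ⟨(hW t ht).1, by linarith [(hW t ht).2]⟩)
    have h3 := hC N hN T (-T) hT0 hT X hsX (fun t ht => ⟨(hX t ht).1, by linarith [(hX t ht).2]⟩)
    set w : ℝ := (W.card : ℝ) with hw
    set p : ℝ := (X.card : ℝ) with hp
    have hw0 : 0 ≤ w := Nat.cast_nonneg _
    have hp0 : 0 ≤ p := Nat.cast_nonneg _
    set F : ℝ := (N : ℝ) + w + √T * w ^ (1 / 4 : ℝ) with hF
    set G : ℝ := (N : ℝ) + p + √T * p ^ (1 / 4 : ℝ) with hG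
    have hF0 : 0 ≤ F := by positivity
    have hG0 : 0 ≤ G := by positivity
    set c : ℝ := C * (N : ℝ) ^ ε with hc
    have hc0 : 0 ≤ c := by positivity
    have e : ∑ x ∈ X, ∑ t ∈ W, ‖D N a (t + x)‖ ^ 2 =
        ∑ x ∈ X, ∑ y ∈ W, ‖Pool.Agent.X108.HB.DD (Icc 1 N) a (0 + x + y)‖ ^ 2 := by
      refine sum_congr rfl fun x _ => sum_congr rfl fun t _ => ?_
      rw [D_eq, zero_add, add_comm]
    rw [e]
    refine h1.trans ?_
    calc √(Pool.Agent.X108.HB.ZZ (Icc 1 N) X) * √(Pool.Agent.X108.HB.ZZ (Icc 1 N) W)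
        ≤ √(c * (p * N * G)) * √(c * (w * N * F)) := by
          gcongr
      _ = √((c * N) ^ 2 * ((w * p) * (F * G))) := by
          rw [← Real.sqrt_mul (by positivity)]
          congr 1
          ring
      _ = c * N * (√(w * p) * √(F * G)) := by
          rw [Real.sqrt_mul (by positivity), Real.sqrt_sq (by positivity), Real.sqrt_mul (by positivity)]
      _ = _ := by ring
  -- the mean over the translates
  have mean : T ≤ (N : ℝ) ^ (3 / 2 : ℝ) → W.card ≤ X.card →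
      ∑ x ∈ X, ∑ t ∈ W, ‖D N a (t + x)‖ ^ 2 ≤
        X.card * (2 * C * (N : ℝ) ^ ε * ((N : ℝ) + W.card) * N) := by
    intro hT2 hWX
    rcases X.eq_empty_or_nonempty with hXe | ⟨x0, hx0⟩
    · subst hXe
      simp
    have hT0 : 0 ≤ T := by
      have := hX x0 hx0
      linarith
    refine (main hT0).trans ?_
    set w : ℝ := (W.card : ℝ) with hw
    set p : ℝ := (X.card : ℝ) with hp
    have hw0 : 0 ≤ w := Nat.cast_nonneg _
    have hp0 : 0 ≤ p := Nat.cast_nonneg _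
    have hwp : w ≤ p := by
      rw [hw, hp]
      exact_mod_cast hWX
    have k1 := third hNr hT0 hw0 hT2
    have k2 := third hNr hT0 hp0 hT2
    have k3 : √(w * p) * √(((N : ℝ) + w + √T * w ^ (1 / 4 : ℝ)) *
        ((N : ℝ) + p + √T * p ^ (1 / 4 : ℝ))) ≤ 2 * (p * (N + w)) := by
      rw [← Real.sqrt_mul (by positivity)]
      apply Real.sqrt_le_iff.2
      refine ⟨by positivity, ?_⟩
      have h4 : (N : ℝ) + w + √T * w ^ (1 / 4 : ℝ) ≤ 2 * (N + w) := by linarith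
      have h5 : (N : ℝ) + p + √T * p ^ (1 / 4 : ℝ) ≤ 2 * (N + p) := by linarith
      have h6 : w * (N + p) ≤ p * (N + w) := by nlinarith
      calc w * p * (((N : ℝ) + w + √T * w ^ (1 / 4 : ℝ)) * ((N : ℝ) + p + √T * p ^ (1 / 4 : ℝ)))
          ≤ w * p * ((2 * (N + w)) * (2 * (N + p))) := by gcongr
        _ = 4 * (p * (N + w)) * (w * (N + p)) := by ring
        _ ≤ 4 * (p * (N + w)) * (p * (N + w)) := by gcongr
        _ = _ := by ring
    calc C * (N : ℝ) ^ ε * √(w * p) * √(((N : ℝ) + w + √T * w ^ (1 / 4 : ℝ)) *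
          ((N : ℝ) + p + √T * p ^ (1 / 4 : ℝ))) * N
        = C * (N : ℝ) ^ ε * N * (√(w * p) * √(((N : ℝ) + w + √T * w ^ (1 / 4 : ℝ)) *
          ((N : ℝ) + p + √T * p ^ (1 / 4 : ℝ)))) := by ring
      _ ≤ C * (N : ℝ) ^ ε * N * (2 * (p * (N + w))) := by gcongr
      _ = _ := by ring
  refine ⟨?_, mean, ?_⟩
  · rcases lt_or_ge T 0 with hT0 | hT0
    · have hWe : W = ∅ := by
        rw [eq_empty_iff_forall_notMem]
        intro t ht
        have := hW t ht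
        linarith
      subst hWe
      simp
    · refine (main hT0).trans ?_
      have : C ≤ 2 * C := by linarith
      gcongr
  · intro hT2 hWn hbad
    by_contra hcon
    push Not at hcon
    have h1 := mean hT2 hcon
    have hXn : X.Nonempty := by
      rw [← card_pos]
      exact lt_of_lt_of_le hWn.card_pos hcon
    have h2 : ∑ x ∈ X, (2 * C * (N : ℝ) ^ ε * ((N : ℝ) + W.card) * N) <
        ∑ x ∈ X, ∑ t ∈ W, ‖D N a (t + x)‖ ^ 2 := sum_lt_sum_of_nonempty hXn hbad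
    rw [sum_const, nsmul_eq_mul] at h2
    linarith

end Pool.Agent.Results.MP_71ac24_nt.FewBadTranslates
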