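import Pool.Agent.H73.GS.G

set_option autoImplicit false

/-!
# Montgomery's conjecture for all Dirichlet polynomials supported on an interval of length `N^(7/12)`

Q1 holds, for all `T ≤ N²` and all `1`-separated `S ⊂ [0,T]`, for all coefficients bounded by `1` which vanish
outside an interval of at most `N^(7/12)` consecutive integers of `[N/2, N]` (for `N^(1/2)` this is trivial).
More precisely, for arbitrary complex coefficients on such an interval,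
`∑_{t ∈ S} |D(t)|² ≤ C N^ε (N^(4/3) + |S| N^(5/12)) ∑ |a_n|²`.

The proof is the method of Halász and Montgomery with a third derivative test of the quality of Gritsenko and
Sargos for `∑_{h < L} (m + h)^{it}`: Weyl differencing, with the steps `1, 2, 3, …` or the steps
`q, 2q, 3q, …` according to the size of the denominator of a rational approximation `a/q` of the second
derivative of the phase.  For `N ≤ |t| ≤ N^(7/6)`, where single sums can be too large, the `t` with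
`t / (2 π m)` close to an integer are counted.
-/

namespace Pool.Agent.Results.MP_71ac24_nt.IntervalsSevenTwelfths

open Finset

/-- `D(t) = ∑_{n ≤ N} a_n n^{it}` -/
noncomputable def D (N : ℕ) (a : ℕ → ℂ) (t : ℝ) : ℂ :=
  ∑ n ∈ Icc 1 N, a n * Complex.exp (Complex.I * (t : ℂ) * (Real.log (n : ℝ) : ℂ))

open Pool.Agent.R327.SI (AP mem_AP card_AP supp_sum supp_len lg_sq) in
/-- Let `a` vanish in `[1, N]` outside `[m, m + L)`, where `m ≥ N/2` and `L ≤ N^(7/12)`, let `T ≤ N²` and let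
`S ⊂ [0,T]` be `1`-separated. Then `∑_{t ∈ S} |D(t)|² ≤ C N^ε (N^(4/3) + |S| N^(5/12)) ∑_{n ≤ N} |a_n|²`, and
if `|a_n| ≤ 1` for all `n` the inequality of Q1 holds: `∑_{t ∈ S} |D(t)|² ≤ C N^ε (N + |S|) N`. -/
theorem result (ε : ℝ) (hε : 0 < ε) : ∃ C : ℝ, ∀ (N m L : ℕ) (T : ℝ) (a : ℕ → ℂ), 1 ≤ N → N ≤ 2 * m →
    (L : ℝ) ≤ (N : ℝ) ^ (7 / 12 : ℝ) → T ≤ (N : ℝ) ^ 2 →
    (∀ n ∈ Icc 1 N, a n ≠ 0 → m ≤ n ∧ n < m + L) →
    ∀ S : Finset ℝ, (∀ t ∈ S, 0 ≤ t ∧ t ≤ T) → (∀ t ∈ S, ∀ u ∈ S, t ≠ u → 1 ≤ |t - u|) →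
      (∑ t ∈ S, ‖D N a t‖ ^ 2 ≤ C * (N : ℝ) ^ ε *
        ((N : ℝ) ^ (4 / 3 : ℝ) + S.card * (N : ℝ) ^ (5 / 12 : ℝ)) * ∑ n ∈ Icc 1 N, ‖a n‖ ^ 2) ∧
      ((∀ n, ‖a n‖ ≤ 1) → ∑ t ∈ S, ‖D N a t‖ ^ 2 ≤ C * (N : ℝ) ^ ε * (N + S.card) * N) := by
  obtain ⟨C1, hC1, hl⟩ := lg_sq ε hε
  refine ⟨10000000 * C1, ?_⟩
  intro N m L T a hN hNm hL hT hs S hS hsep
  have hN1 : (1 : ℝ) ≤ N := by exact_mod_cast hN
  have hN0 : (0 : ℝ) < N := by linarith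
  have hCpos : 0 < C1 := by linarith
  have hm1 : 1 ≤ m := by omega
  have hG0 : 0 ≤ ∑ n ∈ Icc 1 N, ‖a n‖ ^ 2 := sum_nonneg fun _ _ => by positivity
  rcases Nat.lt_or_ge N m with hm | hm
  · have hz : ∀ n ∈ Icc 1 N, a n = 0 := by
      intro n hn
      by_contra hne
      have := hs n hn hne
      rw [mem_Icc] at hn
      omega
    have hD0 : ∀ t, D N a t = 0 := by
      intro t
      unfold D
      rw [sum_congr rfl (fun n hn => by rw [hz n hn, zero_mul])]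
      simp
    have h0 : ∑ t ∈ S, ‖D N a t‖ ^ 2 = 0 := by
      apply sum_eq_zero
      intro t _
      rw [hD0, norm_zero]
      norm_num
    rw [h0]
    constructor
    · positivity
    · intro _
      positivity
  set N1 : ℕ := (N + 1) / 2 with hN1'
  have hN11 : 1 ≤ N1 := by omega
  have hN1N : N1 ≤ N := by omega
  have hN2N1 : N ≤ 2 * N1 := by omega
  have hN1r : (1 : ℝ) ≤ N1 := by exact_mod_cast hN11
  have hN1r0 : (0 : ℝ) < N1 := by linarith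
  have hN1Nr : (N1 : ℝ) ≤ N := by exact_mod_cast hN1N
  have hN2 : (N : ℝ) ≤ 2 * N1 := by exact_mod_cast hN2N1
  set L' : ℕ := min L ((N - m) / 1 + 1) with hL'
  have hL'L : (L' : ℝ) ≤ L := by exact_mod_cast min_le_left _ _
  set P : Finset ℕ := AP m 1 L' with hPdef
  have hsum : ∀ t : ℝ, D N a t = ∑ n ∈ P, a n * Pool.Agent.TH705.DL.ph t n := by
    intro t
    exact supp_sum 1 N m 1 L hm1 hm le_rfl (fun n => a n * Pool.Agent.TH705.DL.ph t n)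
      (fun n hn hne => by
        have := hs n hn (left_ne_zero_of_mul hne)
        exact ⟨n - m, by omega, by omega⟩)
  have hsub : P ⊆ Icc 1 N := by
    intro n hn
    obtain ⟨j, hj, rfl⟩ := mem_AP.1 hn
    rw [hL', lt_min_iff, Nat.div_one] at hj
    rw [mem_Icc]
    constructor <;> omega
  have hGG : ∑ n ∈ P, ‖a n‖ ^ 2 ≤ ∑ n ∈ Icc 1 N, ‖a n‖ ^ 2 :=
    sum_le_sum_of_subset_of_nonneg hsub (fun _ _ _ => by positivity)
  have hlog : (1 + Real.log (2 * N1)) ^ 2 ≤ C1 * (N : ℝ) ^ ε := by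
    calc (1 + Real.log (2 * N1)) ^ 2 ≤ C1 * (N1 : ℝ) ^ ε := hl N1 hN11
      _ ≤ _ := by
          have h1 : (N1 : ℝ) ^ ε ≤ (N : ℝ) ^ ε := Real.rpow_le_rpow hN1r0.le hN1Nr hε.le
          gcongr
  have hLr : (L' : ℝ) ≤ 2 * (N1 : ℝ) ^ (7 / 12 : ℝ) := by
    calc (L' : ℝ) ≤ (N : ℝ) ^ (7 / 12 : ℝ) := hL'L.trans hL
      _ ≤ (2 * (N1 : ℝ)) ^ (7 / 12 : ℝ) := Real.rpow_le_rpow (by linarith) hN2 (by norm_num)
      _ = 2 ^ (7 / 12 : ℝ) * (N1 : ℝ) ^ (7 / 12 : ℝ) := by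
          rw [Real.mul_rpow (by norm_num) (Nat.cast_nonneg _)]
      _ ≤ 2 * (N1 : ℝ) ^ (7 / 12 : ℝ) := by
          have : (2 : ℝ) ^ (7 / 12 : ℝ) ≤ 2 := by
            calc (2 : ℝ) ^ (7 / 12 : ℝ) ≤ 2 ^ (1 : ℝ) :=
                  Real.rpow_le_rpow_of_exponent_le (by norm_num) (by norm_num)
              _ = 2 := Real.rpow_one _
          gcongr
  have hlen : m + L' ≤ 2 * N1 + 1 := by
    have := supp_len N (2 * N1) m 1 L hm hN2N1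
    rw [← hL'] at this
    omega
  have hT' : T ≤ 4 * (N1 : ℝ) ^ 2 := by
    calc T ≤ (N : ℝ) ^ 2 := hT
      _ ≤ (2 * (N1 : ℝ)) ^ 2 := by gcongr
      _ = _ := by ring
  have key := Pool.Agent.H73.GS.ls712 N1 m L' hN11 (by omega) hlen hLr T 0 hT' S hsep
    (fun t ht => by simpa using hS t ht) a
  have e1 : ∑ t ∈ S, ‖D N a t‖ ^ 2 = ∑ t ∈ S, ‖∑ n ∈ P, a n * Pool.Agent.TH705.DL.ph t n‖ ^ 2 := by
    apply sum_congr rfl
    intro t _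
    rw [hsum t]
  have hP0 : 0 ≤ ∑ n ∈ P, ‖a n‖ ^ 2 := sum_nonneg fun _ _ => by positivity
  have e2 : (N1 : ℝ) ^ (4 / 3 : ℝ) ≤ (N : ℝ) ^ (4 / 3 : ℝ) :=
    Real.rpow_le_rpow hN1r0.le hN1Nr (by norm_num)
  have e3 : (N1 : ℝ) ^ (5 / 12 : ℝ) ≤ (N : ℝ) ^ (5 / 12 : ℝ) :=
    Real.rpow_le_rpow hN1r0.le hN1Nr (by norm_num)
  have hmain : ∑ t ∈ S, ‖D N a t‖ ^ 2 ≤ 10000000 * C1 * (N : ℝ) ^ ε *
      ((N : ℝ) ^ (4 / 3 : ℝ) + S.card * (N : ℝ) ^ (5 / 12 : ℝ)) * ∑ n ∈ P, ‖a n‖ ^ 2 := by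
    rw [e1]
    refine key.trans ?_
    calc 10000000 * (1 + Real.log (2 * N1)) ^ 2 *
          ((N1 : ℝ) ^ (4 / 3 : ℝ) + S.card * (N1 : ℝ) ^ (5 / 12 : ℝ)) * ∑ n ∈ P, ‖a n‖ ^ 2
        ≤ 10000000 * (C1 * (N : ℝ) ^ ε) *
          ((N : ℝ) ^ (4 / 3 : ℝ) + S.card * (N : ℝ) ^ (5 / 12 : ℝ)) * ∑ n ∈ P, ‖a n‖ ^ 2 := by gcongr
      _ = _ := by ring
  refine ⟨hmain.trans (by gcongr), ?_⟩
  intro ha
  have hPc : ∑ n ∈ P, ‖a n‖ ^ 2 ≤ (N : ℝ) ^ (7 / 12 : ℝ) := by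
    calc ∑ n ∈ P, ‖a n‖ ^ 2 ≤ ∑ n ∈ P, (1 : ℝ) := by
          apply sum_le_sum
          intro n _
          have := ha n
          have h0 := norm_nonneg (a n)
          nlinarith
      _ = P.card := by simp
      _ ≤ L' := by exact_mod_cast card_AP m 1 L'
      _ ≤ _ := hL'L.trans hL
  refine hmain.trans ?_
  calc 10000000 * C1 * (N : ℝ) ^ ε *
        ((N : ℝ) ^ (4 / 3 : ℝ) + S.card * (N : ℝ) ^ (5 / 12 : ℝ)) * ∑ n ∈ P, ‖a n‖ ^ 2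
      ≤ 10000000 * C1 * (N : ℝ) ^ ε *
        ((N : ℝ) ^ (4 / 3 : ℝ) + S.card * (N : ℝ) ^ (5 / 12 : ℝ)) * (N : ℝ) ^ (7 / 12 : ℝ) := by gcongr
    _ = 10000000 * C1 * (N : ℝ) ^ ε * ((N : ℝ) ^ (23 / 12 : ℝ) + S.card * N) := by
        have h1 : (N : ℝ) ^ (4 / 3 : ℝ) * (N : ℝ) ^ (7 / 12 : ℝ) = (N : ℝ) ^ (23 / 12 : ℝ) := by
          rw [← Real.rpow_add hN0]; norm_num
        have h2 : (N : ℝ) ^ (5 / 12 : ℝ) * (N : ℝ) ^ (7 / 12 : ℝ) = N := by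
          rw [← Real.rpow_add hN0]; norm_num
        calc _ = 10000000 * C1 * (N : ℝ) ^ ε * ((N : ℝ) ^ (4 / 3 : ℝ) * (N : ℝ) ^ (7 / 12 : ℝ) +
              S.card * ((N : ℝ) ^ (5 / 12 : ℝ) * (N : ℝ) ^ (7 / 12 : ℝ))) := by ring
          _ = _ := by rw [h1, h2]
    _ ≤ 10000000 * C1 * (N : ℝ) ^ ε * ((N : ℝ) ^ (2 : ℝ) + S.card * N) := by
        have h3 : (N : ℝ) ^ (23 / 12 : ℝ) ≤ (N : ℝ) ^ (2 : ℝ) :=
          Real.rpow_le_rpow_of_exponent_le hN1 (by norm_num)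
        gcongr
    _ = _ := by
        rw [Real.rpow_two]
        ring

end Pool.Agent.Results.MP_71ac24_nt.IntervalsSevenTwelfths
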