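import Mathlib
import Pool.Agent.H31.MO.E

/-!
# Montgomery's inequality for all separated sets near integers with restricted digits

`D(t) = ∑_{n ≤ N} a_n n^{it}` with arbitrary coefficients bounded by one. The points `t` are `1`-separated
and each of them lies in `[β + α u, β + α u + 1)` for some `u < b ^ L` whose digit at the place `i` (base `b`) belongs
to the set `D_i` of `s` digits, which is a union of at most `r` runs of consecutive digits. For `b ^ L ≤ N ^ 2` we show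
`∑ |D(t)|^2 ≤ 400 α b (1 + log N)^3 (r (3 + log b))^L (N + s^L) N`.
For `s ^ 2 ≤ b`, and `b` large in terms of `ε` and `r`, this is Montgomery's conjectured inequality, for every
`1`-separated set of points of any size near such integers, in the full range up to `N ^ 2`.
-/

set_option autoImplicit false

open Finset

namespace Pool.Agent.Results.MP_71ac24_nt.MissingDigitSets

/-- the Dirichlet polynomial `∑_{1 ≤ n ≤ N} a n * exp (i t log n)` -/
noncomputable def dirPoly (N : ℕ) (a : ℕ → ℂ) (t : ℝ) : ℂ :=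
  ∑ n ∈ Icc 1 N, a n * Complex.exp (((t * Real.log n : ℝ) : ℂ) * Complex.I)

/-- the number of runs of consecutive integers of which the finite set `D` is the union -/
def runs (D : Finset ℕ) : ℕ := (D.filter (fun d => d + 1 ∉ D)).card

/-- the `u < b ^ L` whose digit at the place `i` in base `b` lies in `D i`, for all `i < L` -/
def Digits (b L : ℕ) (D : ℕ → Finset ℕ) (u : ℕ) : Prop := u < b ^ L ∧ ∀ i < L, u / b ^ i % b ∈ D i

/-- `L` sets of `s` digits in base `b`, each of them a union of at most `r` runs -/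
def DigitSets (b L s r : ℕ) (D : ℕ → Finset ℕ) : Prop :=
  ∀ i < L, D i ⊆ range b ∧ (D i).card = s ∧ runs (D i) ≤ r

/-- distinct members of `W` are at distance at least `1` -/
def Separated (W : Finset ℝ) : Prop := ∀ t ∈ W, ∀ t' ∈ W, t ≠ t' → 1 ≤ |t - t'|

/-- every member of `W` lies in `[β + α u, β + α u + 1)` for some `u` with the prescribed digits -/
def Near (b L : ℕ) (D : ℕ → Finset ℕ) (α β : ℝ) (W : Finset ℝ) : Prop :=
  ∀ t ∈ W, ∃ u : ℕ, Digits b L D u ∧ β + α * u ≤ t ∧ t < β + α * u + 1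

lemma part1 {b L N s r : ℕ} (hb : 2 ≤ b) (hN : 1 ≤ N) (hL : b^L ≤ N^2) {D : ℕ → Finset ℕ} (hs1 : 1 ≤ s)
    (hD : DigitSets b L s r D) {α β : ℝ} (hα : 1 ≤ α) {W : Finset ℝ} (hsep : Separated W) (hnear : Near b L D α β W)
    {a : ℕ → ℂ} (ha : ∀ n ∈ Icc 1 N, ‖a n‖ ≤ 1) :
    ∑ t ∈ W, ‖dirPoly N a t‖^2 ≤
      400 * α * b * (1 + Real.log N)^3 * (r * (3 + Real.log b))^L * (N + (s:ℝ)^L) * N := by
  have ha' : ∀ n, 1 ≤ n → n ≤ N → ‖a n‖ ≤ 1 := fun n h1 h2 => ha n (mem_Icc.mpr ⟨h1, h2⟩)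
  rcases Nat.eq_zero_or_pos L with rfl | hL0
  · -- no digits
    have h := H31.MO.main (b := b) (L := 0) (N := N) (s := 1) (r := 1) (α := α) (β := β) hb hN hL (D := fun _ => {0})
      (fun i d hd => by rw [mem_singleton] at hd; omega) le_rfl (fun i => card_singleton 0)
      (fun i => by
        refine (card_filter_le _ _).trans ?_
        rw [card_singleton]) hα W hsep ?_ a ha'
    · have h' : ∑ t ∈ W, ‖dirPoly N a t‖^2 ≤ 400 * α * b * (1 + Real.log N)^3 * (((1:ℕ):ℝ) * (3 + Real.log b))^0 *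
          (N + ((1:ℕ):ℝ)^0) * N := h
      simpa using h'
    · intro t ht
      obtain ⟨u, hu, h1, h2⟩ := hnear t ht
      refine ⟨u, ?_, h1, h2⟩
      rw [H31.MO.Dset_mem]
      exact ⟨hu.1, fun i hi => absurd hi (Nat.not_lt_zero i)⟩
  · set D' : ℕ → Finset ℕ := fun i => if i < L then D i else D 0 with hD'
    have hall : ∀ i, D' i ⊆ range b ∧ (D' i).card = s ∧ runs (D' i) ≤ r := by
      intro i
      simp only [hD']
      split_ifs with h
      · exact hD i h
      · exact hD 0 hL0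
    refine H31.MO.main (b := b) (L := L) (N := N) (s := s) (r := r) (α := α) (β := β) hb hN hL (D := D')
      (fun i d hd => mem_range.mp ((hall i).1 hd)) hs1 (fun i => (hall i).2.1) (fun i => (hall i).2.2) hα W hsep ?_ a ha'
    intro t ht
    obtain ⟨u, hu, h1, h2⟩ := hnear t ht
    refine ⟨u, ?_, h1, h2⟩
    rw [H31.MO.Dset_mem]
    refine ⟨hu.1, fun i hi => ?_⟩
    simp only [hD', if_pos hi]
    exact hu.2 i hi

/-- **Montgomery's inequality for separated sets near integers with restricted digits** -/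
theorem result :
    -- (1) the explicit inequality
    (∀ (b L N s r : ℕ) (D : ℕ → Finset ℕ) (α β : ℝ) (W : Finset ℝ) (a : ℕ → ℂ),
      2 ≤ b → 1 ≤ N → b ^ L ≤ N ^ 2 → 1 ≤ s → DigitSets b L s r D → 1 ≤ α → Separated W → Near b L D α β W →
      (∀ n ∈ Icc 1 N, ‖a n‖ ≤ 1) →
      ∑ t ∈ W, ‖dirPoly N a t‖ ^ 2 ≤
        400 * α * b * (1 + Real.log N) ^ 3 * (r * (3 + Real.log b)) ^ L * (N + (s : ℝ) ^ L) * N) ∧
    -- (2) the inequality of the question
    (∀ ε A : ℝ, 0 < ε → 1 ≤ A → ∃ C : ℝ, 0 < C ∧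
      ∀ (b L N s r : ℕ) (D : ℕ → Finset ℕ) (α β : ℝ) (W : Finset ℝ) (a : ℕ → ℂ),
      2 ≤ b → r * (3 + Real.log b) ≤ (b : ℝ) ^ (ε / 4) →
      1 ≤ N → b ^ L ≤ N ^ 2 → 1 ≤ s → DigitSets b L s r D → 1 ≤ α → α ≤ A → Separated W → Near b L D α β W →
      (∀ n ∈ Icc 1 N, ‖a n‖ ≤ 1) → (s ^ 2 ≤ b ∨ (s : ℝ) ^ L ≤ A * W.card) →
      ∑ t ∈ W, ‖dirPoly N a t‖ ^ 2 ≤ C * b * (N : ℝ) ^ ε * (N + W.card) * N) := by
  refine ⟨?_, ?_⟩
  · intro b L N s r D α β W a hb hN hL hs1 hD hα hsep hnear ha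
    exact part1 hb hN hL hs1 hD hα hsep hnear ha
  · intro ε A hε hA
    refine ⟨800 * A^2 * (1 + 6 / ε)^3, by positivity, ?_⟩
    intro b L N s r D α β W a hb hrb hN hL hs1 hD hα hαA hsep hnear ha hor
    refine (part1 hb hN hL hs1 hD hα hsep hnear ha).trans ?_
    have hN1 : (1:ℝ) ≤ N := by exact_mod_cast hN
    have hN0 : (0:ℝ) < N := by linarith
    have hlN : 0 ≤ Real.log N := Real.log_nonneg hN1
    have hb1 : (1:ℝ) < b := by exact_mod_cast (by omega : 1 < b)
    have hb0 : (0:ℝ) < b := by linarith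
    have hlb : 0 < Real.log b := Real.log_pos hb1
    have hLr : (b:ℝ)^L ≤ (N:ℝ)^2 := by exact_mod_cast hL
    have h1 : (1 + Real.log N)^3 ≤ (1 + 6 / ε)^3 * (N:ℝ)^(ε/2) := by
      have e1 : 1 + Real.log N ≤ (1 + 6 / ε) * (N:ℝ)^(ε/6) := by
        have a1 := Real.log_le_rpow_div hN0.le (by positivity : 0 < ε / 6)
        have a2 : (1:ℝ) ≤ (N:ℝ)^(ε/6) := Real.one_le_rpow hN1 (by positivity)
        have a3 : (N:ℝ)^(ε/6) / (ε/6) = 6 / ε * (N:ℝ)^(ε/6) := by field_simp
        rw [a3] at a1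
        linarith
      calc (1 + Real.log N)^3 ≤ ((1 + 6 / ε) * (N:ℝ)^(ε/6))^3 := pow_le_pow_left₀ (by linarith) e1 3
        _ = (1 + 6 / ε)^3 * ((N:ℝ)^(ε/6))^3 := mul_pow _ _ _
        _ = _ := by
          congr 1
          rw [← Real.rpow_natCast, ← Real.rpow_mul hN0.le]
          congr 1
          push_cast
          ring
    have h2 : (r * (3 + Real.log b))^L ≤ (N:ℝ)^(ε/2) := by
      calc (r * (3 + Real.log b))^L ≤ ((b:ℝ)^(ε/4))^L := pow_le_pow_left₀ (by positivity) hrb L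
        _ = ((b:ℝ)^L)^(ε/4) := by
          rw [← Real.rpow_natCast, ← Real.rpow_mul hb0.le, ← Real.rpow_natCast (b:ℝ) L, ← Real.rpow_mul hb0.le, mul_comm]
        _ ≤ ((N:ℝ)^2)^(ε/4) := Real.rpow_le_rpow (by positivity) hLr (by positivity)
        _ = _ := by
          rw [← Real.rpow_natCast (N:ℝ) 2, ← Real.rpow_mul hN0.le]
          congr 1
          push_cast
          ring
    have h3 : (N:ℝ) + (s:ℝ)^L ≤ 2 * A * (N + W.card) := by
      have hW : (0:ℝ) ≤ W.card := Nat.cast_nonneg _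
      rcases hor with h | h
      · have e1 : (s:ℝ)^L ≤ N := by
          rw [← pow_le_pow_iff_left₀ (by positivity) hN0.le (by norm_num : (2:ℕ) ≠ 0)]
          have hr' : (s:ℝ)^2 ≤ b := by exact_mod_cast h
          calc ((s:ℝ)^L)^2 = ((s:ℝ)^2)^L := by rw [← pow_mul, ← pow_mul, mul_comm]
            _ ≤ (b:ℝ)^L := pow_le_pow_left₀ (by positivity) hr' L
            _ ≤ _ := hLr
        nlinarith
      · nlinarith
    have h4 : (N:ℝ)^(ε/2) * (N:ℝ)^(ε/2) = (N:ℝ)^ε := by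
      rw [← Real.rpow_add hN0]
      congr 1
      ring
    have hNe : 0 < (N:ℝ)^(ε/2) := by positivity
    calc 400 * α * b * (1 + Real.log N)^3 * (r * (3 + Real.log b))^L * (N + (s:ℝ)^L) * N
        ≤ 400 * A * b * ((1 + 6 / ε)^3 * (N:ℝ)^(ε/2)) * (N:ℝ)^(ε/2) * (2 * A * (N + W.card)) * N := by
          gcongr
      _ = 800 * A^2 * (1 + 6 / ε)^3 * b * ((N:ℝ)^(ε/2) * (N:ℝ)^(ε/2)) * (N + W.card) * N := by ring
      _ = _ := by rw [h4]

end Pool.Agent.Results.MP_71ac24_nt.MissingDigitSets
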