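import Pool.Agent.H73.HB.E

set_option autoImplicit false

/-!
# Montgomery's large values conjecture on sets of small doubling, up to `T = N²`

Let `|a_n| ≤ 1` be supported on the integers of `[1, N]` of an arithmetic progression with `L ≤ N` terms
and let `1 ≤ Δ ≤ N`; if `Δ > 1` the support is also contained in an interval of length `N/Δ` of
`[N/2, N]`.  Put `F(s) = N²/Δ + L s + L T^{1/2} s^{1/4} Δ^{-3/4}`.

(i) For all finite sets `W ⊂ [0,T]`, `X ⊂ [-T,T]` of reals with distances at least `Δ`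
`∑_{t ∈ W} |D(t)|² ≤ C N^ε (c/|X|)^{1/2} (F(|X|) F(c))^{1/2}`, where `c` is the number of the cells
`[kΔ, (k+1)Δ)` which meet `W + X`.

(ii) If at most `K |W|` of these cells meet `W + W`, or if at most `K |W|` meet `W - W`, then the sum
is at most `C K N^ε F(|W|)`; hence the inequality of Q1 holds on `W`, with the factor `K`, as soon as
`L² T ≤ N^{7/2} Δ^{3/2}`: for all coefficients if `T ≤ N^{3/2}` (`L = N`, `Δ = 1`), and in the whole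
range `T ≤ N²` for all coefficients supported on a progression of `N^{3/4}` terms (`Δ = 1`) or, for
points with distances at least `2 N^{1/7}`, on an interval of length `N^{6/7} / 2`.

(iii) The same for arithmetic progressions.

The proof: Heath-Brown's inequality for the double sum over the differences of a well spaced set, for
zeta sums over parts of progressions, via the rationals of bounded height close to `1`.
-/

namespace Pool.Agent.Results.MP_71ac24_nt.SmallDoublingSets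

open Finset

/-- `D(t) = ∑_{n ≤ N} a_n n^{it}` -/
noncomputable def D (N : ℕ) (a : ℕ → ℂ) (t : ℝ) : ℂ :=
  ∑ n ∈ Finset.Icc 1 N, a n * Complex.exp (Complex.I * (t : ℂ) * (Real.log (n : ℝ) : ℂ))

/-- distinct members have distance at least `Δ` -/
def Separated (Δ : ℝ) (S : Finset ℝ) : Prop := ∀ t ∈ S, ∀ u ∈ S, t ≠ u → Δ ≤ |t - u|

/-- the support lies in a progression with `L` terms and, if `Δ ≠ 1`, in `[N/2, N]` and in an interval
of length `N / Δ` -/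
def Supported (N L : ℕ) (Δ : ℝ) (a : ℕ → ℂ) : Prop :=
  (∃ m d : ℕ, ∀ n ∈ Icc 1 N, a n ≠ 0 → ∃ j < L, n = m + d * j) ∧
  (Δ = 1 ∨ ∀ n ∈ Icc 1 N, ∀ n' ∈ Icc 1 N, a n ≠ 0 → a n' ≠ 0 →
    N ≤ 2 * n ∧ Δ * |(n : ℝ) - n'| ≤ N)

/-- the number of the cells `[kΔ, (k+1)Δ)` which meet `W + X` -/
noncomputable def cells (Δ : ℝ) (W X : Finset ℝ) : ℕ := by
  classical
  exact ((W ×ˢ X).image fun p => ⌊(p.1 + p.2) / Δ⌋).card

/-- `-W` -/
noncomputable def neg (W : Finset ℝ) : Finset ℝ := by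
  classical
  exact W.image fun t => -t

/-- `N²/Δ + L s + L T^{1/2} s^{1/4} Δ^{-3/4}` -/
noncomputable def F (N L : ℕ) (T Δ s : ℝ) : ℝ :=
  (N : ℝ) ^ 2 / Δ + L * s + L * √T * s ^ (1 / 4 : ℝ) / Δ ^ (3 / 4 : ℝ)

theorem F_eq (N L : ℕ) (T Δ s : ℝ) : Pool.Agent.H73.HB.FF N L T Δ s = F N L T Δ s := rfl

theorem cells_eq (Δ : ℝ) (W X : Finset ℝ) : Pool.Agent.H73.HB.cells Δ W X = cells Δ W X := rfl

theorem F_nonneg {N L : ℕ} {T Δ s : ℝ} (hΔ : 0 ≤ Δ) (hs : 0 ≤ s) : 0 ≤ F N L T Δ s := by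
  unfold F; positivity

theorem F_mono {N L : ℕ} {T Δ s s' K : ℝ} (hΔ : 0 ≤ Δ) (hs : 0 ≤ s) (hs0 : 0 ≤ s') (hK : 1 ≤ K)
    (h : s' ≤ K * s) : F N L T Δ s' ≤ K * F N L T Δ s := by
  have hK0 : 0 ≤ K := by linarith
  have h1 : s' ^ (1 / 4 : ℝ) ≤ K * s ^ (1 / 4 : ℝ) := by
    calc s' ^ (1 / 4 : ℝ) ≤ (K * s) ^ (1 / 4 : ℝ) := Real.rpow_le_rpow hs0 h (by norm_num)
      _ = K ^ (1 / 4 : ℝ) * s ^ (1 / 4 : ℝ) := Real.mul_rpow hK0 hs
      _ ≤ K ^ (1 : ℝ) * s ^ (1 / 4 : ℝ) :=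
          mul_le_mul_of_nonneg_right (Real.rpow_le_rpow_of_exponent_le hK (by norm_num))
            (by positivity)
      _ = _ := by rw [Real.rpow_one]
  unfold F
  have a1 : (N : ℝ) ^ 2 / Δ ≤ K * ((N : ℝ) ^ 2 / Δ) := le_mul_of_one_le_left (by positivity) hK
  have a2 : L * s' ≤ K * (L * s) := by
    calc L * s' ≤ L * (K * s) := by gcongr
      _ = _ := by ring
  have a3 : L * √T * s' ^ (1 / 4 : ℝ) / Δ ^ (3 / 4 : ℝ) ≤
      K * (L * √T * s ^ (1 / 4 : ℝ) / Δ ^ (3 / 4 : ℝ)) := by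
    calc _ ≤ L * √T * (K * s ^ (1 / 4 : ℝ)) / Δ ^ (3 / 4 : ℝ) := by gcongr
      _ = _ := by ring
  linarith

/-- the range of Q1 -/
theorem F_le {N L : ℕ} {T Δ s : ℝ} (hN : 1 ≤ N) (hL : L ≤ N) (hT : 0 ≤ T) (hΔ : 1 ≤ Δ) (hs : 0 ≤ s)
    (h : (L : ℝ) ^ 2 * T ≤ (N : ℝ) ^ (7 / 2 : ℝ) * Δ ^ (3 / 2 : ℝ)) :
    F N L T Δ s ≤ 2 * (((N : ℝ) + s) * N) := by
  have hNr : (1 : ℝ) ≤ N := by exact_mod_cast hN
  have hN0 : (0 : ℝ) < N := by linarith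
  have hΔ0 : 0 < Δ := by linarith
  have hLr : (L : ℝ) ≤ N := by exact_mod_cast hL
  have h1 : L * √T ≤ (N : ℝ) ^ (7 / 4 : ℝ) * Δ ^ (3 / 4 : ℝ) := by
    have e1 : (L * √T) ^ 2 = (L : ℝ) ^ 2 * T := by rw [mul_pow, Real.sq_sqrt hT]
    have e2 : ((N : ℝ) ^ (7 / 4 : ℝ) * Δ ^ (3 / 4 : ℝ)) ^ 2 =
        (N : ℝ) ^ (7 / 2 : ℝ) * Δ ^ (3 / 2 : ℝ) := by
      rw [mul_pow, ← Real.rpow_natCast, ← Real.rpow_natCast, ← Real.rpow_mul hN0.le,
        ← Real.rpow_mul hΔ0.le]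
      norm_num
    refine (sq_le_sq₀ (by positivity) (by positivity)).1 ?_
    rw [e1, e2]
    exact h
  have hΔ34 : 0 < Δ ^ (3 / 4 : ℝ) := by positivity
  have h2 : L * √T * s ^ (1 / 4 : ℝ) / Δ ^ (3 / 4 : ℝ) ≤ ((N : ℝ) + s) * N := by
    calc L * √T * s ^ (1 / 4 : ℝ) / Δ ^ (3 / 4 : ℝ)
        ≤ ((N : ℝ) ^ (7 / 4 : ℝ) * Δ ^ (3 / 4 : ℝ)) * s ^ (1 / 4 : ℝ) / Δ ^ (3 / 4 : ℝ) := by gcongr
      _ = (N : ℝ) ^ (7 / 4 : ℝ) * s ^ (1 / 4 : ℝ) := by field_simp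
      _ = (s ^ (1 / 4 : ℝ) * (N : ℝ) ^ (3 / 4 : ℝ)) * N := by
          have : (N : ℝ) ^ (7 / 4 : ℝ) = (N : ℝ) ^ (3 / 4 : ℝ) * N := by
            rw [← Real.rpow_add_one hN0.ne']
            norm_num
          rw [this]
          ring
      _ ≤ (s + N) * N := by
          have := Pool.Agent.H73.HB.quarter hs hN0.le
          gcongr
      _ = _ := by ring
  have h3 : (N : ℝ) ^ 2 / Δ ≤ (N : ℝ) ^ 2 := div_le_self (by positivity) hΔ
  have h4 : L * s ≤ N * s := by gcongr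
  unfold F
  nlinarith

theorem D_eq (N : ℕ) (a : ℕ → ℂ) (t : ℝ) :
    D N a t = Pool.Agent.X108.HB.DD ((Icc 1 N).filter fun n => a n ≠ 0) a t := by
  unfold D Pool.Agent.X108.HB.DD
  rw [sum_filter_of_ne]
  · refine sum_congr rfl fun n _ => ?_
    unfold Pool.Agent.X108.HB.ee
    congr 2
    push_cast
    ring
  · intro n _ h
    exact left_ne_zero_of_mul h

/-- the general inequality -/
theorem part1 {ε : ℝ} (hε : 0 < ε) : ∃ C : ℝ, 1 ≤ C ∧ ∀ (N L : ℕ) (T Δ : ℝ) (a : ℕ → ℂ),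
    1 ≤ N → L ≤ N → T ≤ (N : ℝ) ^ 2 → 1 ≤ Δ → Δ ≤ N → (∀ n, ‖a n‖ ≤ 1) → Supported N L Δ a →
    ∀ W X : Finset ℝ, X.Nonempty → (∀ t ∈ W, 0 ≤ t ∧ t ≤ T) → (∀ t ∈ X, -T ≤ t ∧ t ≤ T) →
    Separated Δ W → Separated Δ X →
    ∑ t ∈ W, ‖D N a t‖ ^ 2 ≤ C * (N : ℝ) ^ ε * (√((cells Δ W X : ℝ) / X.card) *
      √(F N L T Δ X.card * F N L T Δ (cells Δ W X))) := by
  obtain ⟨C, hC1, hC⟩ := Pool.Agent.H73.HB.main hε
  refine ⟨C, hC1, ?_⟩
  intro N L T Δ a hN hL hT hΔ hΔN ha hsup W X hXn hW hX hWs hXs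
  rcases W.eq_empty_or_nonempty with hWe | ⟨w, hw⟩
  · subst hWe
    rw [sum_empty]
    positivity
  have hT0 : 0 ≤ T := (hW w hw).1.trans (hW w hw).2
  obtain ⟨⟨m, d, hmd⟩, hnear⟩ := hsup
  have h := hC N L T Δ a ((Icc 1 N).filter fun n => a n ≠ 0) m d hN hL hT0 hT hΔ hΔN
    (fun n _ => ha n) (filter_subset _ _)
    (fun n hn => by
      rw [mem_filter] at hn
      exact hmd n hn.1 hn.2)
    (by
      rcases hnear with h | h
      · exact Or.inl h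
      · right
        intro n hn n' hn'
        rw [mem_filter] at hn hn'
        exact h n hn.1 n' hn'.1 hn.2 hn'.2)
    W X hXn hW hX hWs hXs
  simp only [D_eq]
  exact h

theorem cells_ge {Δ : ℝ} (hΔ : 0 < Δ) {W X : Finset ℝ} (hX : X.Nonempty) (hW : Separated Δ W) :
    W.card ≤ cells Δ W X := by
  classical
  obtain ⟨x, hx⟩ := hX
  unfold cells
  have hinj : Set.InjOn (fun w : ℝ => ⌊(w + x) / Δ⌋) (W : Set ℝ) := by
    intro t ht u hu htu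
    by_contra hne
    have h1 := hW t ht u hu hne
    simp only at htu
    have k1 := Int.floor_le ((t + x) / Δ)
    have k2 := Int.lt_floor_add_one ((t + x) / Δ)
    have k3 := Int.floor_le ((u + x) / Δ)
    have k4 := Int.lt_floor_add_one ((u + x) / Δ)
    rw [htu] at k1 k2
    rw [le_div_iff₀ hΔ] at k1 k3
    rw [div_lt_iff₀ hΔ] at k2 k4
    rcases le_abs.1 h1 with h2 | h2 <;> linarith
  rw [← card_image_of_injOn hinj]
  apply card_le_card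
  intro k hk
  rw [mem_image] at hk ⊢
  obtain ⟨w, hw, rfl⟩ := hk
  exact ⟨(w, x), mem_product.2 ⟨hw, hx⟩, rfl⟩

theorem part2 {ε : ℝ} (hε : 0 < ε) : ∃ C : ℝ, 1 ≤ C ∧ ∀ (N L : ℕ) (T Δ : ℝ) (a : ℕ → ℂ),
    1 ≤ N → L ≤ N → T ≤ (N : ℝ) ^ 2 → 1 ≤ Δ → Δ ≤ N → (∀ n, ‖a n‖ ≤ 1) → Supported N L Δ a →
    ∀ (W : Finset ℝ) (K : ℝ), 1 ≤ K → (∀ t ∈ W, 0 ≤ t ∧ t ≤ T) → Separated Δ W →
    ((cells Δ W W : ℝ) ≤ K * W.card ∨ (cells Δ W (neg W) : ℝ) ≤ K * W.card) →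
    ∑ t ∈ W, ‖D N a t‖ ^ 2 ≤ C * K * (N : ℝ) ^ ε * F N L T Δ W.card ∧
    ((L : ℝ) ^ 2 * T ≤ (N : ℝ) ^ (7 / 2 : ℝ) * Δ ^ (3 / 2 : ℝ) →
      ∑ t ∈ W, ‖D N a t‖ ^ 2 ≤ C * K * (N : ℝ) ^ ε * (((N : ℝ) + W.card) * N)) := by
  classical
  obtain ⟨C, hC1, hC⟩ := part1 hε
  refine ⟨2 * C, by linarith, ?_⟩
  intro N L T Δ a hN hL hT hΔ hΔN ha hsup W K hK hW hWs hcase
  have hNr : (1 : ℝ) ≤ N := by exact_mod_cast hN
  have hN0 : (0 : ℝ) < N := by linarith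
  have hΔ0 : 0 < Δ := by linarith
  have hK0 : 0 < K := by linarith
  rcases W.eq_empty_or_nonempty with hWe | hWn
  · subst hWe
    rw [sum_empty]
    have := F_nonneg (N := N) (L := L) (T := T) hΔ0.le (le_refl (0 : ℝ))
    simp only [card_empty, Nat.cast_zero]
    exact ⟨by positivity, fun _ => by positivity⟩
  obtain ⟨w, hw⟩ := id hWn
  have hT0 : 0 ≤ T := (hW w hw).1.trans (hW w hw).2
  set s : ℝ := (W.card : ℝ) with hs
  have hs1 : 1 ≤ s := by rw [hs]; exact_mod_cast hWn.card_pos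
  have hs0 : 0 < s := by linarith
  have hF0 := F_nonneg (N := N) (L := L) (T := T) hΔ0.le hs0.le
  -- one of the two sets
  have key : ∀ X : Finset ℝ, X.Nonempty → (∀ t ∈ X, -T ≤ t ∧ t ≤ T) → Separated Δ X →
      X.card = W.card → (cells Δ W X : ℝ) ≤ K * s →
      ∑ t ∈ W, ‖D N a t‖ ^ 2 ≤ C * K * (N : ℝ) ^ ε * F N L T Δ s := by
    intro X hXn hX hXs hXc hcX
    have h1 := hC N L T Δ a hN hL hT hΔ hΔN ha hsup W X hXn hW hX hWs hXs
    rw [hXc, ← hs] at h1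
    have hc0 : (0 : ℝ) ≤ cells Δ W X := Nat.cast_nonneg _
    have h2 := F_mono (N := N) (L := L) (T := T) hΔ0.le hs0.le hc0 hK hcX
    have h3 : √((cells Δ W X : ℝ) / s) ≤ √K := by
      apply Real.sqrt_le_sqrt
      rw [div_le_iff₀ hs0]
      exact hcX
    have h4 : √(F N L T Δ s * F N L T Δ (cells Δ W X)) ≤ √K * F N L T Δ s := by
      calc _ ≤ √(F N L T Δ s * (K * F N L T Δ s)) := by gcongr
        _ = √(K * F N L T Δ s ^ 2) := by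
            congr 1
            ring
        _ = _ := by rw [Real.sqrt_mul hK0.le, Real.sqrt_sq hF0]
    calc _ ≤ _ := h1
      _ ≤ C * (N : ℝ) ^ ε * (√K * (√K * F N L T Δ s)) := by gcongr
      _ = C * (√K * √K) * (N : ℝ) ^ ε * F N L T Δ s := by ring
      _ = _ := by rw [Real.mul_self_sqrt hK0.le]
  have hmain : ∑ t ∈ W, ‖D N a t‖ ^ 2 ≤ C * K * (N : ℝ) ^ ε * F N L T Δ s := by
    rcases hcase with hc | hc
    · exact key W hWn (fun t ht => ⟨by linarith [(hW t ht).1], (hW t ht).2⟩) hWs rfl hc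
    · refine key (neg W) ?_ ?_ ?_ ?_ hc
      · unfold neg
        exact hWn.image _
      · intro t ht
        unfold neg at ht
        rw [mem_image] at ht
        obtain ⟨u, hu, rfl⟩ := ht
        exact ⟨by linarith [(hW u hu).2], by linarith [(hW u hu).1]⟩
      · intro t ht u hu htu
        unfold neg at ht hu
        rw [mem_image] at ht hu
        obtain ⟨t', ht', rfl⟩ := ht
        obtain ⟨u', hu', rfl⟩ := hu
        have := hWs t' ht' u' hu' (fun h => htu (by rw [h]))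
        rwa [neg_sub_neg, abs_sub_comm]
      · unfold neg
        exact card_image_of_injective _ neg_injective
  refine ⟨hmain.trans ?_, fun h => hmain.trans ?_⟩
  · have : C * K * (N : ℝ) ^ ε * F N L T Δ s ≤ 2 * (C * K * (N : ℝ) ^ ε * F N L T Δ s) := by
      have : 0 ≤ C * K * (N : ℝ) ^ ε * F N L T Δ s := by positivity
      linarith
    exact this.trans (le_of_eq (by ring))
  · have h1 := F_le hN hL hT0 hΔ hs0.le h
    calc C * K * (N : ℝ) ^ ε * F N L T Δ s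
        ≤ C * K * (N : ℝ) ^ ε * (2 * (((N : ℝ) + s) * N)) := by gcongr
      _ = _ := by ring

theorem part3 {ε : ℝ} (hε : 0 < ε) : ∃ C : ℝ, 1 ≤ C ∧ ∀ (N L : ℕ) (T Δ : ℝ) (a : ℕ → ℂ),
    1 ≤ N → L ≤ N → T ≤ (N : ℝ) ^ 2 → 1 ≤ Δ → Δ ≤ N → (∀ n, ‖a n‖ ≤ 1) → Supported N L Δ a →
    ∀ (t₀ δ : ℝ) (K : ℕ), Δ ≤ δ → 0 ≤ t₀ → t₀ + K * δ ≤ T + δ →
    ∑ k ∈ range K, ‖D N a (t₀ + k * δ)‖ ^ 2 ≤ C * (N : ℝ) ^ ε * F N L T Δ K ∧
    ((L : ℝ) ^ 2 * T ≤ (N : ℝ) ^ (7 / 2 : ℝ) * Δ ^ (3 / 2 : ℝ) →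
      ∑ k ∈ range K, ‖D N a (t₀ + k * δ)‖ ^ 2 ≤ C * (N : ℝ) ^ ε * (((N : ℝ) + K) * N)) := by
  classical
  obtain ⟨C, hC1, hC⟩ := part2 hε
  refine ⟨C * 2, by linarith, ?_⟩
  intro N L T Δ a hN hL hT hΔ hΔN ha hsup t₀ δ K hδ ht₀ hKT
  have hΔ0 : 0 < Δ := by linarith
  have hδ0 : 0 < δ := by linarith
  set g : ℕ → ℝ := fun k => t₀ + k * δ with hg
  have hinj : Function.Injective g := by
    intro k l h
    simp only [hg, add_right_inj] at h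
    exact_mod_cast mul_right_cancel₀ hδ0.ne' h
  set W : Finset ℝ := (range K).image g with hW
  have hWc : W.card = K := by rw [hW, card_image_of_injective _ hinj, card_range]
  have hWs : Separated Δ W := by
    intro t ht u hu htu
    rw [hW, mem_image] at ht hu
    obtain ⟨k, _, rfl⟩ := ht
    obtain ⟨l, _, rfl⟩ := hu
    have hkl : k ≠ l := by
      rintro rfl
      exact htu rfl
    have h1 : (1 : ℝ) ≤ |(k : ℝ) - l| := by
      have h2 : (1 : ℤ) ≤ |(k : ℤ) - l| := Int.one_le_abs (by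
        rw [sub_ne_zero]
        exact_mod_cast hkl)
      exact_mod_cast h2
    have e : g k - g l = ((k : ℝ) - l) * δ := by simp only [hg]; ring
    rw [e, abs_mul, abs_of_pos hδ0]
    nlinarith
  have hWT : ∀ t ∈ W, 0 ≤ t ∧ t ≤ T := by
    intro t ht
    rw [hW, mem_image] at ht
    obtain ⟨k, hk, rfl⟩ := ht
    rw [mem_range] at hk
    have hk1 : (k : ℝ) + 1 ≤ K := by exact_mod_cast hk
    have hk0 : (0 : ℝ) ≤ k := Nat.cast_nonneg _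
    simp only [hg]
    constructor
    · positivity
    · nlinarith
  have hcells : (cells Δ W (neg W) : ℝ) ≤ 2 * W.card := by
    rw [hWc]
    have h1 : cells Δ W (neg W) ≤ 2 * K := by
      unfold cells
      have hsub : ((W ×ˢ neg W).image fun p : ℝ × ℝ => ⌊(p.1 + p.2) / Δ⌋) ⊆
          (range (2 * K)).image fun j : ℕ => ⌊(((j : ℝ) - K) * δ) / Δ⌋ := by
        intro x hx
        rw [mem_image] at hx
        obtain ⟨p, hp, rfl⟩ := hx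
        rw [mem_product] at hp
        obtain ⟨h1, h2⟩ := hp
        unfold neg at h2
        rw [mem_image] at h2
        obtain ⟨u, hu, hu2⟩ := h2
        rw [hW, mem_image] at h1 hu
        obtain ⟨k, hk, hk2⟩ := h1
        obtain ⟨l, hl, hl2⟩ := hu
        rw [mem_range] at hk hl
        rw [mem_image]
        refine ⟨k + K - l, by rw [mem_range]; omega, ?_⟩
        have e : ((k + K - l : ℕ) : ℝ) = (k : ℝ) + K - l := by
          rw [Nat.cast_sub (by omega)]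
          push_cast
          ring
        rw [e, ← hu2, ← hl2, ← hk2]
        simp only [hg]
        congr 2
        ring
      refine (card_le_card hsub).trans (card_image_le.trans ?_)
      rw [card_range]
    exact_mod_cast h1
  have hsum : ∑ k ∈ range K, ‖D N a (t₀ + k * δ)‖ ^ 2 = ∑ t ∈ W, ‖D N a t‖ ^ 2 := by
    rw [hW, sum_image fun x _ y _ h => hinj h]
  have h := hC N L T Δ a hN hL hT hΔ hΔN ha hsup W 2 (by norm_num) hWT hWs (Or.inr hcells)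
  rw [hWc] at h
  rw [hsum]
  exact h

theorem result :
    ∀ ε : ℝ, 0 < ε → ∃ C : ℝ, 0 < C ∧ ∀ (N L : ℕ) (T Δ : ℝ) (a : ℕ → ℂ), 1 ≤ N → L ≤ N →
      T ≤ (N : ℝ) ^ 2 → 1 ≤ Δ → Δ ≤ N → (∀ n, ‖a n‖ ≤ 1) → Supported N L Δ a →
      (∀ W X : Finset ℝ, X.Nonempty → (∀ t ∈ W, 0 ≤ t ∧ t ≤ T) → (∀ t ∈ X, -T ≤ t ∧ t ≤ T) →
        Separated Δ W → Separated Δ X →
        ∑ t ∈ W, ‖D N a t‖ ^ 2 ≤ C * (N : ℝ) ^ ε * (√((cells Δ W X : ℝ) / X.card) *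
          √(F N L T Δ X.card * F N L T Δ (cells Δ W X)))) ∧
      (∀ (W : Finset ℝ) (K : ℝ), 1 ≤ K → (∀ t ∈ W, 0 ≤ t ∧ t ≤ T) → Separated Δ W →
        ((cells Δ W W : ℝ) ≤ K * W.card ∨ (cells Δ W (neg W) : ℝ) ≤ K * W.card) →
        ∑ t ∈ W, ‖D N a t‖ ^ 2 ≤ C * K * (N : ℝ) ^ ε * F N L T Δ W.card ∧
        ((L : ℝ) ^ 2 * T ≤ (N : ℝ) ^ (7 / 2 : ℝ) * Δ ^ (3 / 2 : ℝ) →
          ∑ t ∈ W, ‖D N a t‖ ^ 2 ≤ C * K * (N : ℝ) ^ ε * (((N : ℝ) + W.card) * N))) ∧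
      (∀ (t₀ δ : ℝ) (K : ℕ), Δ ≤ δ → 0 ≤ t₀ → t₀ + K * δ ≤ T + δ →
        ∑ k ∈ range K, ‖D N a (t₀ + k * δ)‖ ^ 2 ≤ C * (N : ℝ) ^ ε * F N L T Δ K ∧
        ((L : ℝ) ^ 2 * T ≤ (N : ℝ) ^ (7 / 2 : ℝ) * Δ ^ (3 / 2 : ℝ) →
          ∑ k ∈ range K, ‖D N a (t₀ + k * δ)‖ ^ 2 ≤ C * (N : ℝ) ^ ε * (((N : ℝ) + K) * N))) := by
  intro ε hε
  obtain ⟨C1, h1, H1⟩ := part1 hε
  obtain ⟨C2, h2, H2⟩ := part2 hε
  obtain ⟨C3, h3, H3⟩ := part3 hε
  refine ⟨max C1 (max C2 C3), lt_of_lt_of_le (by linarith) (le_max_left _ _), ?_⟩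
  intro N L T Δ a hN hL hT hΔ hΔN ha hsup
  have hNr : (1 : ℝ) ≤ N := by exact_mod_cast hN
  have hm1 : C1 ≤ max C1 (max C2 C3) := le_max_left _ _
  have hm2 : C2 ≤ max C1 (max C2 C3) := (le_max_left _ _).trans (le_max_right _ _)
  have hm3 : C3 ≤ max C1 (max C2 C3) := (le_max_right _ _).trans (le_max_right _ _)
  have hFs : ∀ s : ℝ, 0 ≤ s → 0 ≤ F N L T Δ s := fun s hs => F_nonneg (by linarith) hs
  refine ⟨?_, ?_, ?_⟩
  · intro W X hXn hW hX hWs hXs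
    refine (H1 N L T Δ a hN hL hT hΔ hΔN ha hsup W X hXn hW hX hWs hXs).trans ?_
    gcongr
  · intro W K hK hW hWs hc
    obtain ⟨k1, k2⟩ := H2 N L T Δ a hN hL hT hΔ hΔN ha hsup W K hK hW hWs hc
    have := hFs W.card (Nat.cast_nonneg _)
    refine ⟨k1.trans ?_, fun h => (k2 h).trans ?_⟩ <;> gcongr
  · intro t₀ δ K hδ ht₀ hKT
    obtain ⟨k1, k2⟩ := H3 N L T Δ a hN hL hT hΔ hΔN ha hsup t₀ δ K hδ ht₀ hKT
    have := hFs K (Nat.cast_nonneg _)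
    refine ⟨k1.trans ?_, fun h => (k2 h).trans ?_⟩ <;> gcongr

end Pool.Agent.Results.MP_71ac24_nt.SmallDoublingSets
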